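import Mathlib
import Pool.Agent.V1154.Tri.Main

/-!
# Homogeneous locally nilpotent derivations of trinomial algebras are elementary

Let `k` be an algebraically closed field of characteristic zero and let
`g = T_0 ^ (l_0) + T_1 ^ (l_1) + T_2 ^ (l_2)` be a trinomial, given by the finite set `ι` of
variables, the block `p j ∈ {0, 1, 2}` and the exponent `l j` of every variable `j`. Assume that
at least two of the three monomials contain a variable of exponent one (the case that was left
open). Then every `K`-homogeneous locally nilpotent derivation of `R(g) = k[T] / (g)` is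
elementary, that is, of the form `h δ_{C,β}` with `δ_{C,β}` of type (i) or (ii) and `h` a
homogeneous element of its kernel.
-/

set_option autoImplicit false

namespace Pool.Agent.Results.MP_5d42ae_ag.TrinomialLND

open Pool.Agent.V1154.Tri

universe u v

theorem result (k : Type u) [Field k] [IsAlgClosed k] [CharZero k] (ι : Type v) [Fintype ι]
    [DecidableEq ι] (p : ι → Fin 3) (l : ι → ℕ)
    -- each of the three monomials contains at least one variable
    (hp : Function.Surjective p)
    -- the exponents are positive
    (hl : ∀ j, 0 < l j)
    -- at least two of the three monomials contain a variable of exponent one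
    (h1 : ∃ j j', p j ≠ p j' ∧ l j = 1 ∧ l j' = 1)
    (D : Derivation k (TriAlg k p l) (TriAlg k p l)) (hD : IsLND D) (hom : IsHomDer k p l D) :
    IsElementary k p l D := by
  refine main ⟨hp, hl, ?_⟩ D hD hom
  obtain ⟨j, j', hj, h2, h3⟩ := h1
  intro i i' hii
  by_cases hi : p j = i ∨ p j = i'
  · exact ⟨j, hi, h2⟩
  · push Not at hi
    refine ⟨j', ?_, h3⟩
    have e : ∀ a b i i' : Fin 3, a ≠ b → i ≠ i' → a ≠ i → a ≠ i' → b = i ∨ b = i' := by decide
    exact e _ _ _ _ hj hii hi.1 hi.2

end Pool.Agent.Results.MP_5d42ae_ag.TrinomialLND
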